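import Pool.Agent.Q269.DX.St

/-!
# Project DX of helper269: job CLN (helper265), the number of the families of divisors with given labels
-/

set_option autoImplicit false
set_option linter.all false

open scoped Classical
open Finset Polynomial Filter Topology

namespace Pool.Agent.Q265.DX

open Pool.Agent.Q269.DX Pool.Agent.Q269.DX.JQ Pool.Agent.Q269.DX.LD

theorem span_of_spn {P s : Type} [Fintype P] [Fintype s] {h : P → s → ZMod 2} (hS : Spn h) :
    Submodule.span (ZMod 2) (Set.range h) = ⊤ := by
  by_contra hne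
  obtain ⟨F, hF, hle⟩ := Submodule.exists_le_ker_of_lt_top _ (lt_top_iff_ne_top.2 hne)
  have hexp : ∀ v : s → ZMod 2, F v = ∑ t, F (Pi.single t 1) * v t := by
    intro v
    have h1 : v = ∑ t, v t • (Pi.single t 1 : s → ZMod 2) := by
      funext x
      rw [Finset.sum_apply, Finset.sum_eq_single x]
      · rw [Pi.smul_apply, Pi.single_eq_same, smul_eq_mul, mul_one]
      · intro b _ hb
        rw [Pi.smul_apply, Pi.single_eq_of_ne (Ne.symm hb), smul_zero]
      · intro hx
        exact absurd (mem_univ _) hx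
    conv_lhs => rw [h1]
    rw [map_sum]
    exact sum_congr rfl fun t _ => by rw [map_smul, smul_eq_mul, mul_comm]
  have h0 : (fun t => F (Pi.single t 1)) = (0 : s → ZMod 2) := by
    refine hS _ fun p => ?_
    rw [← hexp]
    exact hle (Submodule.subset_span (Set.mem_range_self p))
  refine hF (LinearMap.ext fun v => ?_)
  rw [hexp, LinearMap.zero_apply]
  exact sum_eq_zero fun t _ => by rw [show F (Pi.single t 1) = 0 from congrFun h0 t, zero_mul]

theorem t_CLN : S_CLN := by
  intro P M s _ _ _ h hS ρ
  have hadd : ∀ τ τ' : P → M → ZMod 2, lbs h (τ + τ') = lbs h τ + lbs h τ' := by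
    intro τ τ'
    funext i
    show ∑ p, (τ + τ') p i • h p = ∑ p, τ p i • h p + ∑ p, τ' p i • h p
    rw [← sum_add_distrib]
    exact sum_congr rfl fun p _ => by rw [Pi.add_apply, Pi.add_apply, add_smul]
  obtain ⟨A, hA⟩ : ∃ A : (P → M → ZMod 2) →+ (M → s → ZMod 2), ∀ τ, A τ = lbs h τ :=
    ⟨AddMonoidHom.mk' (fun τ => lbs h τ) hadd, fun _ => rfl⟩
  have hsurj : Function.Surjective A := by
    intro r
    have h1 : ∀ i, ∃ c : P → ZMod 2, ∑ p, c p • h p = r i := by
      intro i
      have h2 : r i ∈ Submodule.span (ZMod 2) (Set.range h) := by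
        rw [span_of_spn hS]
        exact Submodule.mem_top
      exact (Submodule.mem_span_range_iff_exists_fun (ZMod 2)).1 h2
    choose c hc using h1
    refine ⟨fun p i => c i p, ?_⟩
    rw [hA]
    funext i
    exact hc i
  have hfib : ∀ y, (univ.filter fun τ => A τ = y).card = (univ.filter fun τ => A τ = ρ).card :=
    fun y => AddMonoidHom.card_fiber_eq_of_mem_range A (hsurj y) (hsurj ρ)
  have hsum : (univ : Finset (P → M → ZMod 2)).card = ∑ y : M → s → ZMod 2, (univ.filter fun τ => A τ = y).card :=
    card_eq_sum_card_fiberwise fun τ _ => mem_coe.2 (mem_univ _)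
  rw [sum_congr rfl fun y _ => hfib y, sum_const, smul_eq_mul, card_univ, card_univ] at hsum
  have hc1 : Fintype.card (P → M → ZMod 2) = 2 ^ (Fintype.card P * Fintype.card M) := by
    rw [Fintype.card_fun, Fintype.card_fun, ZMod.card, ← pow_mul, mul_comm]
  have hc2 : Fintype.card (M → s → ZMod 2) = 2 ^ (Fintype.card M * Fintype.card s) := by
    rw [Fintype.card_fun, Fintype.card_fun, ZMod.card, ← pow_mul, mul_comm]
  rw [hc1, hc2] at hsum
  have h3 : (univ.filter fun τ => A τ = ρ) = (univ : Finset (P → M → ZMod 2)).filter fun τ => lbs h τ = ρ := by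
    ext τ
    rw [mem_filter, mem_filter, hA]
  rw [h3] at hsum
  rw [hsum, mul_comm]

end Pool.Agent.Q265.DX
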