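import Pool.Agent.Q269.DX.St

/-!
# Project DX of helper269: job SPN (helper265), the labels of the prime divisors of almost all polynomials span
-/

set_option autoImplicit false
set_option linter.all false

open scoped Classical
open Finset Polynomial Filter Topology

namespace Pool.Agent.Q265.DX

open Pool.Agent.Q269.DX Pool.Agent.Q269.DX.JQ Pool.Agent.Q269.DX.LD
open Pool.Agent.Q269.DX.Bs (prs ext ze)
open Pool.Agent.Y164.PS (L Fam Sf mem_Sf pf mem_pf sm Pr mem_Pr)
open Pool.Agent.Y164.HG (Dat Symp om EW Geo Del Tau QQ nb)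
open Pool.Agent.Q269.GR (Dn pr)
open Pool.Agent.Q269.GJ (Ip)
open Pool.Agent.H341R2.Sharp (mem_Mon)

section

variable {k : Type} [Field k] [Fintype k] {R : Type} [Fintype R] {n : R → ℕ}

theorem mem_Dn2 {Δ D : k[X]} {m : ℕ} : D ∈ Dn Δ m ↔ D.Monic ∧ D.natDegree = m ∧ Squarefree D ∧ IsCoprime D Δ := by
  rw [Dn, mem_filter, mem_Mon, and_assoc]

theorem dvd_Del {a : ∀ r, Fin (n r) → k[X]} {N : R → ℕ} (H : ∀ r, Geo (a r) (N r)) (x : TQ a) :
    QT a x ∣ Del (a x.1) := ((H x.1).mem.1 x.2.2).2.2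

theorem fam_QT {a : ∀ r, Fin (n r) → k[X]} {N : R → ℕ} (H : ∀ r, Geo (a r) (N r))
    (hcop : ∀ r r', r ≠ r' → IsCoprime (Del (a r)) (Del (a r'))) : Fam (QT a) where
  mon := fun x => (H x.1).fam.mon x.2
  irr := fun x => (H x.1).fam.irr x.2
  inj := by
    rintro ⟨r, s⟩ ⟨r', s'⟩ h
    by_cases hr : r = r'
    · subst hr
      have h1 : s = s' := (H r).fam.inj h
      rw [h1]
    · exfalso
      have h1 := dvd_Del H ⟨r, s⟩
      have h2 := dvd_Del H ⟨r', s'⟩
      rw [← h] at h2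
      exact ((H r).fam.irr s).not_isUnit ((hcop r r' hr).isUnit_of_dvd' h1 h2)

theorem nb_of_Dn {a : ∀ r, Fin (n r) → k[X]} {N : R → ℕ} (H : ∀ r, Geo (a r) (N r)) {m : ℕ} {D : k[X]}
    (hD : D ∈ Dn (∏ r, Del (a r)) m) : D ∈ Sf k m ∧ nb (QT a) D := by
  rw [mem_Dn2] at hD
  refine ⟨mem_Sf.2 ⟨hD.1, hD.2.1, hD.2.2.1⟩, fun x hx => ?_⟩
  have h1 : QT a x ∣ ∏ r, Del (a r) := (dvd_Del H x).trans (dvd_prod_of_mem (fun r => Del (a r)) (mem_univ x.1))
  exact ((H x.1).fam.irr x.2).not_isUnit (hD.2.2.2.isUnit_of_dvd' hx h1)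

end

theorem sub_card {α : Type} {s t : Finset α} {p q : α → Prop} {i1 : DecidablePred p} {i2 : DecidablePred q}
    (h : ∀ x ∈ s, p x → x ∈ t ∧ q x) : (@Finset.filter α p i1 s).card ≤ (@Finset.filter α q i2 t).card := by
  refine card_le_card fun x hx => ?_
  rw [mem_filter] at hx ⊢
  exact h x hx.1 hx.2

theorem four_le' {k : Type} [Field k] [Fintype k] (hk : ringChar k ≠ 2) (hm : IsSquare (-1 : k)) :
    4 ≤ Fintype.card k := by
  have h1 := FiniteField.isSquare_neg_one_iff.1 hm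
  have h2 := FiniteField.odd_card_of_char_ne_two hk
  have h3 := Fintype.one_lt_card (α := k)
  omega

theorem t_SPN (h1 : S_ANA) : S_SPN := by
  intro k _ _ R _ n a N H hm hk hcop ε hε
  have hcard : 4 ≤ Fintype.card k := four_le' hk hm
  have key := h1 (TQ a) none (fun U J _ _ _ b _ => ¬ Spn b.h) ?_ k hk hm hcard (QT a) (fam_QT H hcop)
    (fun D => ¬ Spn (lbD a D)) ?_ ε hε
  · filter_upwards [key] with m hm'
    refine le_trans ?_ hm'
    refine Nat.cast_le.2 (sub_card fun D hD hS => ?_)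
    have h3 := nb_of_Dn H hD
    exact ⟨h3.1, h3.2, hS⟩
  · intro δ hδ
    refine ⟨0, 1, fun U J _ _ _ b hb => ?_⟩
    have hSp : Spn b.h := by
      intro l hl
      funext t
      have h2 := hb.many (Pi.single t 1)
      rw [zero_mul, zero_add] at h2
      obtain ⟨i, hi⟩ := card_pos.1 h2
      rw [mem_filter] at hi
      have h3 := hl (Sum.inr i)
      have h4 : b.h (Sum.inr i) = Pi.single t 1 := hi.2
      rw [h4, sum_eq_single t, Pi.single_eq_same, mul_one] at h3
      · exact h3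
      · intro t' _ ht'
        rw [Pi.single_eq_of_ne ht', mul_zero]
      · intro ht
        exact absurd (mem_univ _) ht
    have h5 : Nat.card {α : prs (univ : Finset J) → ZMod 2 // ¬ Spn b.h} = 0 := by
      haveI : IsEmpty {α : prs (univ : Finset J) → ZMod 2 // ¬ Spn b.h} := ⟨fun x => x.2 hSp⟩
      exact Nat.card_of_isEmpty
    rw [h5, Nat.cast_zero]
    positivity
  · intro m T lg hF hG hS
    refine hG fun l hl => ?_
    have hD0 : (∏ i, T i) ≠ 0 := prod_ne_zero_iff.2 fun i _ => (hF.mon (Sum.inl i)).ne_zero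
    have hTi : ∀ i, ∑ t, l t * lb (QT a) (T i) t = 0 := by
      intro i
      have h2 : T i ∈ pr (∏ i, T i) := by
        rw [pr, Multiset.mem_toFinset, Polynomial.mem_normalizedFactors_iff hD0]
        exact ⟨hF.irr (Sum.inl i), hF.mon (Sum.inl i), dvd_prod_of_mem T (mem_univ i)⟩
      exact hl ⟨T i, h2⟩
    refine hS l fun p => ?_
    rcases p with u | i
    · exact hTi u.1
    · exact hTi i.1

end Pool.Agent.Q265.DX
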